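import Pool.Agent.NH20.BX.Last

set_option autoImplicit false

/-!
# At most one exceptional twist of every discriminant, from the threshold `C log |d|` on

Let `d₀ ≠ 0` be any integer and `y ≥ C log |d₀|`, `y ≥ y₀`.  Consider the negative fundamental
discriminants `d` with `d₀ d = m k ^ 2` for some integers `m`, `k ≠ 0` with `|m| ≤ (log y) ^ A`
(the fields `ℚ(√(m d₀))`; there is no condition on `m`, and `d` may have about the size of `d₀`).

(1) At most `(1 + δ) / η ^ 2` of these `d` are such that the number of the split primes below `y` is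
not in `[(1 - η) / 2, (1 + η) / 2] π(y)`.  In particular (`η > 1 / √2 = 0.707…`) all of them, with at
most one exception, have at least `0.146 π(y)` split primes below `y`.  The threshold `C log |d₀|`
has the smallest possible order of magnitude: all primes up to `(1 - o(1)) log |d|` can ramify.

(2) At the threshold `T(d) = (log |d|) ^ 2 (log log |d|) ^ 2` of the question: if `d₁ ≠ d₂`,
`|d₁| ≤ |d₂|` and `d₁ d₂ = m k ^ 2` with `k ≠ 0`, `|m| ≤ (log log |d₁|) ^ A`, then `N(d₁)` or `N(d₂)`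
is at least one seventh of the number of all primes below `T(d₁)`.

Proof: by the theorem of Siegel and Walfisz the vectors of the values of the characters at the primes
below `y` are nearly orthogonal, and the vector `(1, …, 1)` satisfies Bessel's inequality.
-/

namespace Pool.Agent.Results.MP_aaa0df_nt.BoundedExceptions

/-- the fundamental discriminants `d < 0`, that is, the discriminants of the imaginary quadratic
fields (as in the frozen statement) -/
def NegFund (d : ℤ) : Prop := d < 0 ∧ ((d % 4 = 1 ∧ Squarefree d) ∨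
  ∃ m : ℤ, d = 4 * m ∧ (m % 4 = 2 ∨ m % 4 = 3) ∧ Squarefree m)

/-- the threshold `(log |d|) ^ 2 (log log |d|) ^ 2` of the question -/
noncomputable def thr (d : ℤ) : ℝ :=
  Real.log |(d : ℝ)| ^ 2 * Real.log (Real.log |(d : ℝ)|) ^ 2

/-- the number of the primes `p < y` which split in the field of discriminant `d` (`p` does not
divide `d` and `d` is a square modulo `4 p`, as in the frozen statement); `N(d)` of the question is
`splitBelow (thr d) d` -/
noncomputable def splitBelow (y : ℝ) (d : ℤ) : ℕ := Set.ncard {p : ℕ | p.Prime ∧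
  (p : ℝ) < y ∧ ¬ (p : ℤ) ∣ d ∧ ∃ x : ℤ, (4 * (p : ℤ)) ∣ x ^ 2 - d}

/-- the number of the primes `p < y` -/
noncomputable def primesBelow (y : ℝ) : ℕ := Set.ncard {p : ℕ | p.Prime ∧ (p : ℝ) < y}

theorem result :
    (∀ (A : ℕ) (η δ : ℝ), 0 < η → 0 < δ → ∃ C y₀ : ℝ, 0 < C ∧
      ∀ d₀ : ℤ, d₀ ≠ 0 → ∀ y : ℝ, y₀ ≤ y → C * Real.log |(d₀ : ℝ)| ≤ y →
      ∀ S : Finset ℤ, (∀ d ∈ S, NegFund d ∧
        (∃ m k : ℤ, k ≠ 0 ∧ d₀ * d = m * k ^ 2 ∧ |(m : ℝ)| ≤ Real.log y ^ A) ∧
        η * primesBelow y < |2 * (splitBelow y d : ℝ) - primesBelow y|) →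
      (S.card : ℝ) * η ^ 2 ≤ 1 + δ) ∧
    (∀ A : ℕ, ∃ D : ℝ, ∀ d₁ d₂ : ℤ, NegFund d₁ → NegFund d₂ → d₁ ≠ d₂ →
      D ≤ |(d₁ : ℝ)| → |(d₁ : ℝ)| ≤ |(d₂ : ℝ)| →
      (∃ m k : ℤ, k ≠ 0 ∧ d₁ * d₂ = m * k ^ 2 ∧
        |(m : ℝ)| ≤ Real.log (Real.log |(d₁ : ℝ)|) ^ A) →
      primesBelow (thr d₁) ≤ 7 * splitBelow (thr d₁) d₁ ∨
        primesBelow (thr d₁) ≤ 7 * splitBelow (thr d₂) d₂) :=
  ⟨Pool.Agent.NH20.BX.part1, Pool.Agent.NH20.BX.part2⟩

end Pool.Agent.Results.MP_aaa0df_nt.BoundedExceptions
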