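import Pool.Agent.NH20.RP.Rep

set_option autoImplicit false

/-!
# Exceptional discriminants repel each other

For a negative fundamental discriminant `d` let `N(d)` be the number of split primes below the
threshold `(log |d|) ^ 2 (log log |d|) ^ 2` of the question.

Let `d₁ ≠ d₂` be two discriminants, `|d₁| ≤ |d₂|`, whose compositum contains a third quadratic field
with a small discriminant: `d₁ d₂ = m k ^ 2` with `|m| ≤ (log |d₁|) ^ (8 √e - ε)` (`8 √e = 13.18…`).
If `d₁` has at most `(log log |d₁|) ^ A` ramified primes below the threshold, then `N(d₁)` or `N(d₂)`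
is at least `(log log |d₁|) ^ A`.

So, if the answer to Q1 fails for `d₁`, it holds (in a quantitative form) for all other
discriminants `d₂` of the fields `ℚ(√(m d₁))`, `|m| ≤ (log |d₁|) ^ (8 √e - ε)`: for instance, for
every prime `q ≡ 3 mod 4` at most one of the squarefree `m` with
`1 ≤ m ≤ (log q) ^ (4 √e - ε)` (`4 √e = 6.59…`) gives a field `ℚ(√(-q m))` with few small split primes.

Proof: at the primes below the threshold which do not split in either field nor ramify, `m` is a
square; by Burgess' estimate for all moduli and Vinogradov's method an integer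
`|m| ≤ y ^ (4 √e - ε)` which is a square modulo all but `(log y) ^ A` of the primes `≤ y` is a square.
-/

namespace Pool.Agent.Results.MP_aaa0df_nt.ExceptionsRepel

/-- the fundamental discriminants `d < 0`, that is, the discriminants of the imaginary quadratic
fields (as in the frozen statement) -/
def NegFund (d : ℤ) : Prop := d < 0 ∧ ((d % 4 = 1 ∧ Squarefree d) ∨
  ∃ m : ℤ, d = 4 * m ∧ (m % 4 = 2 ∨ m % 4 = 3) ∧ Squarefree m)

/-- the threshold `(log |d|) ^ 2 (log log |d|) ^ 2` of the question -/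
noncomputable def thr (d : ℤ) : ℝ :=
  Real.log |(d : ℝ)| ^ 2 * Real.log (Real.log |(d : ℝ)|) ^ 2

/-- `N(d)` of the question: the number of the primes below the threshold which split in the field
of discriminant `d` (`p` does not divide `d` and `d` is a square modulo `4 p`, as in the frozen
statement) -/
noncomputable def N (d : ℤ) : ℕ := Set.ncard {p : ℕ | p.Prime ∧
  (p : ℝ) < thr d ∧ ¬ (p : ℤ) ∣ d ∧ ∃ x : ℤ, (4 * (p : ℤ)) ∣ x ^ 2 - d}

/-- the number of the ramified primes below the threshold -/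
noncomputable def R (d : ℤ) : ℕ := Set.ncard {p : ℕ | p.Prime ∧ (p : ℝ) < thr d ∧ (p : ℤ) ∣ d}

theorem result (A ε : ℝ) (hε : 0 < ε) : ∃ D : ℝ, ∀ d₁ d₂ : ℤ, NegFund d₁ → NegFund d₂ →
    d₁ ≠ d₂ → D ≤ |(d₁ : ℝ)| → |(d₁ : ℝ)| ≤ |(d₂ : ℝ)| →
    (R d₁ : ℝ) ≤ Real.log (Real.log |(d₁ : ℝ)|) ^ A →
    (∃ m k : ℤ, k ≠ 0 ∧ d₁ * d₂ = m * k ^ 2 ∧
      |(m : ℝ)| ≤ Real.log |(d₁ : ℝ)| ^ (8 * Real.exp (1 / 2) - ε)) →
    Real.log (Real.log |(d₁ : ℝ)|) ^ A ≤ N d₁ ∨ Real.log (Real.log |(d₁ : ℝ)|) ^ A ≤ N d₂ :=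
  Pool.Agent.NH20.RP.repulse A ε hε

end Pool.Agent.Results.MP_aaa0df_nt.ExceptionsRepel
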