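import Pool.Agent.NH20.EX.Last

set_option autoImplicit false

/-!
# Very small split primes along exponential sequences

Let `a ≥ 1`, `b ≥ 2`, `c ≠ 0` be integers and `0 < θ < 1`.  For all but `X ^ (1 - δ)` of the
exponents `n ≤ X` the number of the primes `p ≤ X ^ θ` which split in the field
`ℚ(√(-(a b ^ n + c)))` is at least `κ X ^ θ / log X`, with an absolute constant `κ > 0`.  For
instance `a b ^ n + c = 4 b ^ n - 1` (the fields `ℚ(√(1 - 4 b ^ n))`, whose class numbers are studied
classically), `2 ^ n - 1`, `2 ^ n + 1`.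

Here `log |d| = n log b + O(1)` if `a b ^ n + c` is squarefree, and then the threshold `X ^ θ`, with
any `0 < θ < 1`, is much smaller than the threshold `(log |d|) ^ 2 (log log |d|) ^ 2` of the question;
in general `N(d)` is at least `κ X ^ θ / log X` for the discriminants `d` of these fields whose
threshold exceeds `X ^ θ`.  The family has only `X` members up to `log |d| ≤ X log b + O(1)`.

Proof: second moment over `n` of the sum of `((-(a b ^ n + c)) / p)` over the primes `p ≤ X ^ θ` for
which the order of `b` modulo `p` is divisible by a prime larger than `X ^ (θ (1/2 + κ'))` (a positive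
proportion of the primes by the theorem of Goldfeld); the correlations of two primes `p`, `p'` are
incomplete sums over a cyclic subgroup of the units modulo `p p'`, which are bounded by
`O(√(p p') log p p')` through an average over the whole group.
-/

namespace Pool.Agent.Results.MP_aaa0df_nt.ExponentialSequences

/-- the fundamental discriminants `d < 0`, that is, the discriminants of the imaginary quadratic
fields (as in the frozen statement) -/
def NegFund (d : ℤ) : Prop := d < 0 ∧ ((d % 4 = 1 ∧ Squarefree d) ∨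
  ∃ m : ℤ, d = 4 * m ∧ (m % 4 = 2 ∨ m % 4 = 3) ∧ Squarefree m)

/-- the threshold `(log |d|) ^ 2 (log log |d|) ^ 2` of the question -/
noncomputable def thr (d : ℤ) : ℝ :=
  Real.log |(d : ℝ)| ^ 2 * Real.log (Real.log |(d : ℝ)|) ^ 2

/-- the number of the primes `p ≤ y` which split in the field of discriminant `d` (`p` does not
divide `d` and `d` is a square modulo `4 p`, as in the frozen statement) -/
noncomputable def splitUpTo (y : ℝ) (d : ℤ) : ℕ := Set.ncard {p : ℕ | p.Prime ∧
  (p : ℝ) ≤ y ∧ ¬ (p : ℤ) ∣ d ∧ ∃ x : ℤ, (4 * (p : ℤ)) ∣ x ^ 2 - d}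

/-- `N(d)` of the question: the number of the split primes below the threshold -/
noncomputable def N (d : ℤ) : ℕ := Set.ncard {p : ℕ | p.Prime ∧
  (p : ℝ) < thr d ∧ ¬ (p : ℤ) ∣ d ∧ ∃ x : ℤ, (4 * (p : ℤ)) ∣ x ^ 2 - d}

/-- the fundamental discriminant `d` with `d k ^ 2 = -4 (a b ^ n + c)` for some `k ≠ 0` is the
discriminant of the field generated by the square root of `-(a b ^ n + c)` -/
theorem result : ∃ κ : ℝ, 0 < κ ∧ ∀ a b c : ℤ, 0 < a → 2 ≤ b → c ≠ 0 →
    ∀ θ : ℝ, 0 < θ → θ < 1 → ∃ δ : ℝ, 0 < δ ∧ ∃ X₀ : ℕ, ∀ X : ℕ, X₀ ≤ X →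
      ({n : ℕ | 1 ≤ n ∧ n ≤ X ∧ ∃ d k : ℤ, NegFund d ∧ k ≠ 0 ∧
        d * k ^ 2 = -4 * (a * b ^ n + c) ∧
        ¬ (κ * ((X : ℝ) ^ θ / Real.log X) ≤ splitUpTo ((X : ℝ) ^ θ) d ∧
          ((X : ℝ) ^ θ < thr d → κ * ((X : ℝ) ^ θ / Real.log X) ≤ N d))}.ncard : ℝ) ≤
      (X : ℝ) ^ (1 - δ) :=
  Pool.Agent.NH20.EX.last

end Pool.Agent.Results.MP_aaa0df_nt.ExponentialSequences
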