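import Pool.Agent.NH20.SD.Main

set_option autoImplicit false

/-!
# Split primes of every quadratic field, in terms of the largest prime factor of the discriminant

For every `ε > 0` and every `A` there is `D` such that for EVERY fundamental discriminant `d` with
`|d| ≥ D`, at least `(log |d|) ^ A` primes `p < |d| ^ ε * min (|d| ^ (1 / 4)) (P d)` split in the
quadratic field of discriminant `d`, where `P d` is the largest prime factor of `d`.
-/

namespace Pool.Agent.Results.MP_aaa0df_nt.LargestPrimeFactor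

/-- `d` is the discriminant of a quadratic field (imaginary if `d < 0`, real if `d > 0`) -/
def FundDisc (d : ℤ) : Prop := d ≠ 1 ∧ ((d % 4 = 1 ∧ Squarefree d) ∨
  ∃ m : ℤ, d = 4 * m ∧ (m % 4 = 2 ∨ m % 4 = 3) ∧ Squarefree m)

/-- the largest prime factor of `d` -/
def largestPrime (d : ℤ) : ℕ := d.natAbs.primeFactors.sup id

/-- the primes `p < t` which split in the quadratic field of discriminant `d` (`p` does not divide
`d` and `d` is a square modulo `4 p`, as in the frozen statement) -/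
def splitPrimes (d : ℤ) (t : ℝ) : Set ℕ := {p : ℕ | p.Prime ∧ (p : ℝ) < t ∧ ¬ (p : ℤ) ∣ d ∧
  ∃ x : ℤ, (4 * (p : ℤ)) ∣ x ^ 2 - d}

theorem result (ε A : ℝ) (hε : 0 < ε) : ∃ D : ℝ, ∀ d : ℤ, FundDisc d → D ≤ |(d : ℝ)| →
    Real.log |(d : ℝ)| ^ A ≤ ((splitPrimes d (|(d : ℝ)| ^ ε *
      min (|(d : ℝ)| ^ (1 / 4 : ℝ)) (largestPrime d))).ncard : ℝ) := by
  obtain ⟨D, h⟩ := Pool.Agent.NH20.SD.main ε A hε
  exact ⟨D, fun d hd hD => h d hd.2 hD⟩

end Pool.Agent.Results.MP_aaa0df_nt.LargestPrimeFactor
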